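import Pool.Agent.Work.MP_9d0e17_r3.Quad3
import Pool.Agent.Work.MP_9d0e17_co.Transfer

set_option autoImplicit false

namespace Pool.Agent.Paley67r3

open Pool.Agent.Paley67

theorem main3 :
    ∀ c : ℝ, c < Real.sqrt 3 → ∃ C : ℝ, ∃ P0 : ℕ,
      ∀ p : ℕ, p.Prime → p % 4 = 1 → P0 ≤ p →
      ∀ Φ : ℕ → ℕ → ℂ,
        (∀ r j : ℕ, Φ r j =
          if j = p then (if r = 0 then (1 : ℂ) else 0)
          else if r = 0 then ((1 / Real.sqrt (p : ℝ) : ℝ) : ℂ)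
          else ((Real.sqrt (2 / (p : ℝ)) : ℝ) : ℂ) *
            Complex.exp (2 * (Real.pi : ℂ) * Complex.I * ((r : ℂ) * (j : ℂ)) / (p : ℂ))) →
      ∀ S : Finset ℕ, S ⊆ Finset.range (p + 1) →
        (S.card : ℝ) ≤ c * Real.sqrt (p : ℝ) →
        ∀ x y : ℕ → ℂ,
          (∑ r ∈ (Finset.range p).image (fun s => s * s % p),
              ‖∑ j ∈ S, Φ r j * x j‖ ^ 2) * (∑ j ∈ S, ‖y j‖ ^ 2)
            ≤ C ^ 2 * (∑ r ∈ (Finset.range p).image (fun s => s * s % p),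
              ‖∑ j ∈ S, Φ r j * y j‖ ^ 2) * (∑ j ∈ S, ‖x j‖ ^ 2) := by
  intro c0 hc0
  -- replace `c0` by `c = max c0 1`
  set c := max c0 1 with hcdef
  have hc1 : 1 ≤ c := le_max_right _ _
  have hcc : c0 ≤ c := le_max_left _ _
  have h3 : Real.sqrt 3 * Real.sqrt 3 = 3 := Real.mul_self_sqrt (by norm_num)
  have h3' : 1 < Real.sqrt 3 := by
    rw [Real.lt_sqrt (by norm_num)]; norm_num
  have hc3 : c < Real.sqrt 3 := max_lt hc0 h3'
  have hc : c ^ 2 < 3 := by nlinarith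
  obtain ⟨δ, hδ, hδ1, R, hR, hquad⟩ := quad_bound3 c hc1 hc
  obtain ⟨P0, hP0⟩ := exists_nat_gt ((R + 4 * c / δ ^ 2) ^ 2)
  refine ⟨Real.sqrt (6 / δ), P0, ?_⟩
  intro p hp hp4 hPp Φ hΦ S hS hcard x y
  haveI : Fact p.Prime := ⟨hp⟩
  have hq0 : 0 ≤ 4 * c / δ ^ 2 := by positivity
  have hrt : R + 4 * c / δ ^ 2 ≤ Real.sqrt p := by
    apply Real.le_sqrt_of_sq_le
    have : (P0 : ℝ) ≤ p := by exact_mod_cast hPp
    linarith
  have hsp : Real.sqrt p * Real.sqrt p = p := Real.mul_self_sqrt (Nat.cast_nonneg _)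
  have hsp0 : 0 < Real.sqrt (p : ℝ) := by linarith
  have hR' : R ≤ Real.sqrt p := by linarith
  have hc' : 4 * c / δ ^ 2 ≤ Real.sqrt p := by linarith
  have hcard' : ((resSet p S).card : ℝ) ≤ c * Real.sqrt p := by
    have h1 : ((resSet p S).card : ℝ) ≤ S.card := by exact_mod_cast card_resSet S
    have h2 : c0 * Real.sqrt p ≤ c * Real.sqrt p := mul_le_mul_of_nonneg_right hcc hsp0.le
    linarith
  have h4 : 4 * ((resSet p S).card : ℝ) ≤ δ ^ 2 * p := by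
    rw [div_le_iff₀ (by positivity)] at hc'
    have h5 : 4 * c * Real.sqrt p ≤ Real.sqrt p * δ ^ 2 * Real.sqrt p :=
      mul_le_mul_of_nonneg_right hc' hsp0.le
    calc 4 * ((resSet p S).card : ℝ) ≤ 4 * (c * Real.sqrt p) := by linarith
      _ = 4 * c * Real.sqrt p := by ring
      _ ≤ Real.sqrt p * δ ^ 2 * Real.sqrt p := h5
      _ = δ ^ 2 * (Real.sqrt p * Real.sqrt p) := by ring
      _ = δ ^ 2 * p := by rw [hsp]
  have hb := fun v : ℕ → ℂ => nrm_bounds hp4 (resSet p S) δ hδ (by linarith)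
    (hquad p hp4 hR' (resSet p S) hcard') h4 (if p ∈ S then v p else 0) (fun a => v a.val)
  have hΦ' : Φ = Ph p := by
    funext r j
    rw [hΦ]; rfl
  rw [hΦ', frame_nrm S hS x, frame_nrm S hS y, norm_split S hS x, norm_split S hS y,
    Real.sq_sqrt (by positivity)]
  have hx := (hb x).2
  have hy := (hb y).1
  set A := nrm (resSet p S) (if p ∈ S then x p else 0) (fun a => x a.val)
  set B := nrm (resSet p S) (if p ∈ S then y p else 0) (fun a => y a.val)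
  set X := ‖(if p ∈ S then x p else 0 : ℂ)‖ ^ 2 + ∑ a ∈ resSet p S, ‖x a.val‖ ^ 2
  set Y := ‖(if p ∈ S then y p else 0 : ℂ)‖ ^ 2 + ∑ a ∈ resSet p S, ‖y a.val‖ ^ 2
  have hX : 0 ≤ X := by positivity
  have hY : 0 ≤ Y := by positivity
  calc A * Y ≤ 3 * X * Y := mul_le_mul_of_nonneg_right hx hY
    _ = 6 / δ * (δ / 2 * Y) * X := by field_simp; ring
    _ ≤ 6 / δ * B * X := by
        apply mul_le_mul_of_nonneg_right _ hX
        exact mul_le_mul_of_nonneg_left hy (by positivity)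

end Pool.Agent.Paley67r3
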