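import Pool.Agent.Work.MP_9d0e17_r3.Lin

set_option autoImplicit false

namespace Pool.Agent.Paley67r3

open Pool.Agent.Paley67

/-- pure real algebra: the contradiction inequality -/
theorem contra_real3 (c k ε δ r m Q E z l R1 : ℝ) (hc1 : 1 ≤ c) (hc2 : c ≤ 2)
    (hk : k = 1 / (4 * c) - c / 12) (hεk : 4 * c * ε = k)
    (hδ0 : 0 < δ) (hδ20 : δ ≤ 1 / 20) (hδk : 8 * c * (R1 + 1) ^ 2 * δ ≤ k) (hr20 : 20 ≤ r)
    (hm0 : 0 ≤ m) (hm : m ≤ c * r) (hl : (1 - δ) * r < l)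
    (hQ : Q ≤ (R1 + 1) ^ 2 * m) (hQE : 0 ≤ Q - E)
    (hE : E ≤ (1 / 12 + ε) * m) (hE0 : 0 ≤ E) (hε0 : 0 < ε)
    (hz1 : r / (2 * c) ≤ z) (hz2 : z ≤ r / (2 * c) + 2)
    (key : (r ^ 2 - 1) * z - (m - 1) * z ^ 2 ≤ r ^ 2 * Q - l ^ 2 * (Q - E)) :
    r ^ 2 * (k / 2) ≤ 12 := by
  have hc0 : 0 < c := by linarith only [hc1]
  have hr0 : 0 < r := by linarith only [hr20]
  have hw0 : 0 ≤ r / (2 * c) := by positivity
  have hz0 : 0 ≤ z := hw0.trans hz1
  have hwr : r / (2 * c) ≤ r / 2 := by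
    apply div_le_div_of_nonneg_left hr0.le (by norm_num) (by linarith only [hc1])
  have hl2 : (1 - 2 * δ) * r ^ 2 ≤ l ^ 2 := by
    have h0 : 0 ≤ (1 - δ) * r := mul_nonneg (by linarith only [hδ20]) hr0.le
    have h1 : ((1 - δ) * r) ^ 2 ≤ l ^ 2 := pow_le_pow_left₀ h0 hl.le 2
    have h2 : ((1 - δ) * r) ^ 2 = (1 - 2 * δ) * r ^ 2 + (δ * r) ^ 2 := by ring
    have h3 := sq_nonneg (δ * r)
    linarith only [h1, h2, h3]
  have h1 : (1 - 2 * δ) * r ^ 2 * (Q - E) ≤ l ^ 2 * (Q - E) :=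
    mul_le_mul_of_nonneg_right hl2 hQE
  have hr2 : 0 ≤ r ^ 2 := sq_nonneg r
  have h2 : r ^ 2 * Q - l ^ 2 * (Q - E) ≤ 2 * δ * r ^ 2 * Q + r ^ 2 * E := by
    have e1 : (1 - 2 * δ) * r ^ 2 * (Q - E) =
      r ^ 2 * Q - r ^ 2 * E - 2 * δ * r ^ 2 * Q + 2 * δ * (r ^ 2 * E) := by ring
    have e2 : 0 ≤ 2 * δ * (r ^ 2 * E) := by positivity
    linarith only [h1, e1, e2]
  have h3 : 2 * δ * r ^ 2 * Q ≤ k / (4 * c) * r ^ 2 * m := by
    have e1 : 2 * δ * r ^ 2 * Q ≤ 2 * δ * r ^ 2 * ((R1 + 1) ^ 2 * m) :=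
      mul_le_mul_of_nonneg_left hQ (by positivity)
    have e2 : 2 * δ * (R1 + 1) ^ 2 ≤ k / (4 * c) := by
      rw [le_div_iff₀ (by positivity)]
      linarith only [hδk]
    have e3 : 2 * δ * (R1 + 1) ^ 2 * (r ^ 2 * m) ≤ k / (4 * c) * (r ^ 2 * m) :=
      mul_le_mul_of_nonneg_right e2 (by positivity)
    linarith only [e1, e3]
  have h4 : r ^ 2 * E ≤ r ^ 2 * ((1 / 12 + ε) * m) := mul_le_mul_of_nonneg_left hE hr2
  have hε : ε = k / (4 * c) := by
    rw [← hεk]; field_simp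
  have h5 : r ^ 2 * Q - l ^ 2 * (Q - E) ≤ (1 / 12 + k / (2 * c)) * (r ^ 2 * m) := by
    have e1 : (1 / 12 + k / (2 * c)) * (r ^ 2 * m) =
      k / (4 * c) * r ^ 2 * m + r ^ 2 * ((1 / 12 + k / (4 * c)) * m) := by
      field_simp; ring
    rw [hε] at h4
    linarith only [h2, h3, h4, e1]
  have hkpos : 0 < k := by
    rw [← hεk]; positivity
  have h6 : (1 / 12 + k / (2 * c)) * (r ^ 2 * m) ≤ (1 / 12 + k / (2 * c)) * (r ^ 2 * (c * r)) := by
    apply mul_le_mul_of_nonneg_left _ (by positivity)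
    exact mul_le_mul_of_nonneg_left hm hr2
  have h7 : (1 / 12 + k / (2 * c)) * (r ^ 2 * (c * r)) = (c / 12 + k / 2) * r ^ 3 := by
    field_simp
  obtain ⟨θ, hθ⟩ : ∃ θ : ℝ, z = r / (2 * c) + θ := ⟨z - r / (2 * c), by ring⟩
  have hθ0 : 0 ≤ θ := by linarith only [hθ, hz1]
  have hθ2 : θ ≤ 2 := by linarith only [hθ, hz2]
  have h8 : (r ^ 2 - 1) * z - (m - 1) * z ^ 2 ≥ r ^ 2 * z - z - c * r * z ^ 2 := by
    have e1 : m * z ^ 2 ≤ c * r * z ^ 2 := mul_le_mul_of_nonneg_right hm (sq_nonneg z)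
    have e2 := sq_nonneg z
    linarith only [e1, e2]
  have h9 : r ^ 2 * z - c * r * z ^ 2 = r ^ 3 / (4 * c) - c * r * θ ^ 2 := by
    rw [hθ]; field_simp; ring
  have h10 : c * r * θ ^ 2 ≤ 2 * r * 4 := by
    have e1 : θ ^ 2 ≤ 4 := by nlinarith only [hθ0, hθ2]
    have e2 : c * r * θ ^ 2 ≤ c * r * 4 := mul_le_mul_of_nonneg_left e1 (by positivity)
    have e3 : c * r * 4 ≤ 2 * r * 4 := by nlinarith only [hc2, hr0]
    linarith only [e2, e3]
  have h11 : r ^ 3 * (k / 2) ≤ 8 * r + (r / 2 + 2) := by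
    have e1 : r ^ 3 / (4 * c) = r ^ 3 * k + c / 12 * r ^ 3 := by
      rw [hk]; ring
    have e2 : (c / 12 + k / 2) * r ^ 3 = c / 12 * r ^ 3 + r ^ 3 * (k / 2) := by ring
    linarith only [key, h5, h6, h7, h8, h9, h10, e1, e2, hz2, hwr]
  have h12 : r * (r ^ 2 * (k / 2)) ≤ r * 12 := by
    have e1 : r * (r ^ 2 * (k / 2)) = r ^ 3 * (k / 2) := by ring
    linarith only [h11, e1, hr20]
  exact le_of_mul_le_mul_left h12 hr0

theorem eigen_bound3 (c : ℝ) (hc1 : 1 ≤ c) (hc : c ^ 2 < 3) :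
    ∃ δ : ℝ, 0 < δ ∧ δ ≤ 1 / 20 ∧ ∃ R : ℝ, 20 ≤ R ∧ ∀ (p : ℕ) [Fact p.Prime], p % 4 = 1 →
      R ≤ Real.sqrt p → ∀ S : Finset (ZMod p), (S.card : ℝ) ≤ c * Real.sqrt p →
      ∀ (x : ZMod p → ℝ) (μ : ℝ), (∃ a ∈ S, x a ≠ 0) →
      (∀ a ∈ S, ∑ b ∈ S, (chi p (a - b) : ℝ) * x b = μ * x a) →
      |μ| ≤ (1 - δ) * Real.sqrt p := by
  have hc0 : 0 < c := by linarith only [hc1]
  have hc2 : c < 1.8 := by nlinarith only [hc, hc1]
  set k : ℝ := 1 / (4 * c) - c / 12 with hk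
  have hkpos : 0 < k := by
    have h1 : k = (3 - c ^ 2) / (12 * c) := by
      rw [hk]; field_simp; ring
    rw [h1]
    apply div_pos <;> linarith only [hc, hc0]
  have hk4 : k ≤ 1 / 4 := by
    have h1 : 1 / (4 * c) ≤ 1 / 4 := by
      apply one_div_le_one_div_of_le
      · norm_num
      · linarith only [hc1]
    rw [hk]; linarith only [h1, hc1]
  set ε : ℝ := k / (4 * c) with hε
  have hε0 : 0 < ε := by positivity
  have hεk : 4 * c * ε = k := by rw [hε]; field_simp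
  have hε16 : ε ≤ 1 / 16 := by
    rw [hε, div_le_iff₀ (by positivity)]
    linarith only [hk4, hc1]
  obtain ⟨R1, hR1, hround⟩ := exists_round ε 4 hε0 (by norm_num)
  set δ : ℝ := k / (8 * c * (R1 + 1) ^ 2) with hδ
  have hR25 : 25 ≤ (R1 + 1) ^ 2 := by nlinarith only [hR1]
  have hδ0 : 0 < δ := by positivity
  have hδk : 8 * c * (R1 + 1) ^ 2 * δ = k := by rw [hδ]; field_simp
  have hδ20 : δ ≤ 1 / 20 := by
    rw [hδ, div_le_iff₀ (by positivity)]
    nlinarith only [hk4, hc1, hR25]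
  refine ⟨δ, hδ0, hδ20, 20 + 24 / k + 4 * (R1 + 1), ?_, ?_⟩
  · have : 0 ≤ 24 / k := by positivity
    linarith only [this, hR1]
  intro p _ hp4 hR S hS x μ hx heig
  by_contra hcon
  have hcon := not_le.1 hcon
  have hk24 : 0 ≤ 24 / k := by positivity
  set r := Real.sqrt p with hr
  have hrp : r ^ 2 = p := by
    rw [hr]; exact Real.sq_sqrt (Nat.cast_nonneg _)
  have hr20 : 20 ≤ r := by linarith only [hR, hk24, hR1]
  have hr24 : 24 / k + 20 ≤ r := by linarith only [hR, hk24, hR1]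
  have hrR : 4 * (R1 + 1) + 20 ≤ r := by linarith only [hR, hk24]
  have hr0 : 0 < r := by linarith only [hr20]
  set m : ℝ := (S.card : ℝ) with hm
  have hm0 : 0 ≤ m := by rw [hm]; exact Nat.cast_nonneg _
  obtain ⟨a1, ha1, hxa1⟩ := hx
  obtain ⟨a0, ha0, hmax⟩ := S.exists_max_image (fun a => |x a|) ⟨a1, ha1⟩
  have hMpos : 0 < |x a0| := lt_of_lt_of_le (abs_pos.2 hxa1) (hmax a1 ha1)
  -- normalise
  set M := |x a0| with hM
  let w : ZMod p → ℝ := fun a => x a / M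
  have hwa : ∀ a, |w a| = |x a| / M := by
    intro a
    simp only [w]
    rw [abs_div, abs_of_pos hMpos]
  have hw1 : ∀ a ∈ S, |w a| ≤ 1 := by
    intro a ha
    rw [hwa]
    exact (div_le_one hMpos).2 (hmax a ha)
  have hw0 : |w a0| = 1 := by rw [hwa]; exact div_self hMpos.ne'
  have hweig : ∀ a ∈ S, ∑ b ∈ S, (chi p (a - b) : ℝ) * w b = μ * w a := by
    intro a ha
    simp only [w]
    have h1 : ∑ b ∈ S, (chi p (a - b) : ℝ) * (x b / M) =
        (∑ b ∈ S, (chi p (a - b) : ℝ) * x b) / M := by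
      rw [Finset.sum_div]
      exact Finset.sum_congr rfl fun b _ => by ring
    rw [h1, heig a ha]
    ring
  -- l1 norm
  have hchi : ∀ a : ZMod p, |(chi p a : ℝ)| ≤ 1 := by
    intro a
    rcases eq_or_ne a 0 with h | h
    · have : chi p a = 0 := by rw [h]; exact quadraticChar_zero
      rw [this]; simp
    · have h' : chi p a = 1 ∨ chi p a = -1 := quadraticChar_dichotomy h
      rcases h' with h' | h' <;> rw [h'] <;> simp
  have hsum : |μ| ≤ ∑ b ∈ S, |w b| := by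
    have h1 := hweig a0 ha0
    have h2 : |μ| = |∑ b ∈ S, (chi p (a0 - b) : ℝ) * w b| := by
      rw [h1, abs_mul, hw0, mul_one]
    rw [h2]
    refine (Finset.abs_sum_le_sum_abs _ _).trans (Finset.sum_le_sum fun b _ => ?_)
    rw [abs_mul]
    calc |(chi p (a0 - b) : ℝ)| * |w b| ≤ 1 * |w b| :=
          mul_le_mul_of_nonneg_right (hchi _) (abs_nonneg _)
      _ = |w b| := one_mul _
  obtain ⟨t, ht4, htR, hE⟩ := hround S (fun a => |w a|) (fun a _ => abs_nonneg _)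
  have ht0 : 0 ≤ t := by linarith only [ht4]
  have hrb : ∀ a, t * |w a| - 1 / 2 ≤ (round (t * |w a|) : ℝ) ∧
      (round (t * |w a|) : ℝ) ≤ t * |w a| + 1 / 2 := by
    intro a
    obtain ⟨h1, h2⟩ := round_bounds (t * |w a|)
    constructor <;> linarith only [h1, h2]
  have hrpos : ∀ a, 0 ≤ round (t * |w a|) := by
    intro a
    rw [round_eq]
    apply Int.floor_nonneg.2
    have : 0 ≤ t * |w a| := mul_nonneg ht0 (abs_nonneg _)
    linarith only [this]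
  have hrle : ∀ a ∈ S, (round (t * |w a|) : ℝ) ≤ R1 + 1 := by
    intro a ha
    have h1 := (hrb a).2
    have h2 : t * |w a| ≤ t * 1 := mul_le_mul_of_nonneg_left (hw1 a ha) ht0
    linarith only [h1, h2, htR]
  set N : ℤ := ∑ a ∈ S, round (t * |w a|) with hN
  have hNcast : (N : ℝ) = ∑ a ∈ S, (round (t * |w a|) : ℝ) := by
    rw [hN]; push_cast; rfl
  have hNlow : 2 * r ≤ (N : ℝ) := by
    rw [hNcast]
    have h1 : ∑ a ∈ S, (t * |w a| - 1 / 2) ≤ ∑ a ∈ S, (round (t * |w a|) : ℝ) :=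
      Finset.sum_le_sum fun a _ => (hrb a).1
    rw [Finset.sum_sub_distrib, ← Finset.mul_sum, Finset.sum_const, nsmul_eq_mul] at h1
    have h2 : 4 * |μ| ≤ t * ∑ a ∈ S, |w a| := by
      have e1 : 4 * (∑ b ∈ S, |w b|) ≤ t * ∑ a ∈ S, |w a| :=
        mul_le_mul_of_nonneg_right ht4 (Finset.sum_nonneg fun _ _ => abs_nonneg _)
      linarith only [e1, hsum]
    have h3 : m * (1 / 2) ≤ 0.9 * r := by nlinarith only [hS, hc2, hr0]
    have h4 : (1 - δ) * r ≥ 0.95 * r := by nlinarith only [hδ20, hr0]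
    linarith only [h1, h2, h3, h4, hcon, hr0]
  have hNup : (N : ℝ) ≤ (R1 + 1) * m := by
    rw [hNcast]
    calc ∑ a ∈ S, (round (t * |w a|) : ℝ) ≤ ∑ _a ∈ S, (R1 + 1) := Finset.sum_le_sum hrle
      _ = (R1 + 1) * m := by rw [Finset.sum_const, nsmul_eq_mul, hm]; ring
  -- the choice of z
  have hw00 : 0 ≤ r / (2 * c) := by positivity
  obtain ⟨z, hz1, hz2, hz3⟩ : ∃ z : ℕ, r / (2 * c) ≤ z ∧ (z : ℝ) ≤ r / (2 * c) + 2 ∧
      Even (N + z) := by
    have h1 := Nat.le_ceil (r / (2 * c))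
    have h2 := Nat.ceil_lt_add_one hw00
    rcases Int.even_or_odd (N + (⌈r / (2 * c)⌉₊ : ℕ)) with h | h
    · exact ⟨_, h1, by linarith only [h2], h⟩
    · refine ⟨⌈r / (2 * c)⌉₊ + 1, ?_, ?_, ?_⟩
      · push_cast; linarith only [h1]
      · push_cast; linarith only [h2]
      · push_cast
        rw [← add_assoc]; exact h.add_one
  have hwr : r / (2 * c) ≤ r / 2 := by
    apply div_le_div_of_nonneg_left hr0.le (by norm_num) (by linarith only [hc1])
  have hwr4 : r / 4 ≤ r / (2 * c) := by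
    apply div_le_div_of_nonneg_left hr0.le (by positivity) (by linarith only [hc2])
  have hza : ∀ a ∈ S, round (t * |w a|) ≤ (z : ℤ) := by
    intro a ha
    have h1 := hrle a ha
    have h2 : (round (t * |w a|) : ℝ) ≤ z := by linarith only [h1, hrR, hwr4, hz1]
    exact_mod_cast h2
  have hzN : (z : ℤ) + 2 ≤ N := by
    have h1 : (z : ℝ) + 2 ≤ N := by linarith only [hNlow, hz2, hwr, hr20]
    exact_mod_cast h1
  have hNp : N + z ≤ (p : ℤ) - 1 := by
    have h1 : (N : ℝ) + z ≤ (p : ℝ) - 1 := by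
      rw [← hrp]
      have h2 : (R1 + 1) * m ≤ (R1 + 1) * (1.8 * r) := by
        apply mul_le_mul_of_nonneg_left _ (by linarith only [hR1])
        nlinarith only [hS, hc2, hr0]
      have h3 : (R1 + 1) * (1.8 * r) ≤ r / 4 * (1.8 * r) := by
        apply mul_le_mul_of_nonneg_right _ (by positivity)
        linarith only [hrR]
      nlinarith only [hNup, h2, h3, hz2, hwr, hr20]
    have h2 : ((N + z : ℤ) : ℝ) ≤ (((p : ℤ) - 1 : ℤ) : ℝ) := by push_cast; exact h1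
    exact_mod_cast h2
  have hz0 : 1 ≤ z := by
    have h1 : (0 : ℝ) < z := by linarith only [hz1, hwr4, hr20]
    exact_mod_cast h1
  have hzz : z * z ≤ 2 * (p - 1) := by
    have hp1 : 1 ≤ p := (Fact.out : p.Prime).one_lt.le
    have h1 : (z : ℝ) * z ≤ 2 * ((p : ℝ) - 1) := by
      rw [← hrp]
      have h2 : (z : ℝ) ≤ r / 2 + 2 := by linarith only [hz2, hwr]
      have h3 : (0 : ℝ) ≤ z := Nat.cast_nonneg z
      nlinarith only [h2, h3, hr20]
    have h2 : ((z * z : ℕ) : ℝ) ≤ ((2 * (p - 1) : ℕ) : ℝ) := by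
      push_cast [Nat.cast_sub hp1]; exact h1
    exact_mod_cast h2
  have key := eigen_int hp4 S w μ hweig t ht0 z hz0 hzz hza hzN hz3 hNp
  set Q : ℝ := ∑ a ∈ S, (round (t * |w a|) : ℝ) ^ 2 with hQdef
  set E : ℝ := ∑ a ∈ S, (t * |w a| - round (t * |w a|)) ^ 2 with hEdef
  have hE0 : 0 ≤ E := Finset.sum_nonneg fun _ _ => sq_nonneg _
  have hE' : E ≤ (1 / 12 + ε) * m := hE
  have hQN : (N : ℝ) ≤ Q := by
    rw [hNcast, hQdef]
    refine Finset.sum_le_sum fun a _ => ?_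
    have h1 := hrpos a
    have h2 : round (t * |w a|) ≤ round (t * |w a|) ^ 2 := by
      rcases eq_or_lt_of_le h1 with h | h
      · rw [← h]; norm_num
      · nlinarith
    exact_mod_cast h2
  have hQup : Q ≤ (R1 + 1) ^ 2 * m := by
    rw [hQdef]
    calc ∑ a ∈ S, (round (t * |w a|) : ℝ) ^ 2 ≤ ∑ _a ∈ S, (R1 + 1) ^ 2 := by
          refine Finset.sum_le_sum fun a ha => ?_
          have h1 : (0 : ℝ) ≤ (round (t * |w a|) : ℝ) := by exact_mod_cast hrpos a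
          exact pow_le_pow_left₀ h1 (hrle a ha) 2
      _ = (R1 + 1) ^ 2 * m := by rw [Finset.sum_const, nsmul_eq_mul, hm]; ring
  have hQE : 0 ≤ Q - E := by
    have h1 : (1 / 12 + ε) * m ≤ 1 / 4 * (1.8 * r) := by
      have h2 : m ≤ 1.8 * r := by nlinarith only [hS, hc2, hr0]
      have h3 : (1 / 12 + ε) * m ≤ 1 / 4 * m :=
        mul_le_mul_of_nonneg_right (by linarith only [hε16]) hm0
      linarith only [h2, h3]
    linarith only [h1, hE', hQN, hNlow, hr0]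
  have hμ2 : μ ^ 2 = |μ| ^ 2 := (sq_abs μ).symm
  rw [← hrp, hμ2] at key
  have hfin := contra_real3 c k ε δ r m Q E z |μ| R1 hc1 (by linarith only [hc2]) hk hεk hδ0 hδ20
    hδk.le hr20 hm0 hS hcon hQup hQE hE' hE0 hε0 hz1 hz2 key
  have h24 : 24 / k < r := by linarith only [hr24]
  rw [div_lt_iff₀ hkpos] at h24
  have h25 : r * k * 20 ≤ r * k * r := mul_le_mul_of_nonneg_left hr20 (by positivity)
  nlinarith only [hfin, h24, h25]

end Pool.Agent.Paley67r3
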