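import Mathlib

set_option autoImplicit false

namespace Pool.Agent.Paley67r3

/-- antiderivative of the squared distance to the nearest integer -/
noncomputable def Gr (u : ℝ) : ℝ := (round u : ℝ) / 12 + (u - round u) ^ 3 / 3

theorem round_bounds (u : ℝ) : -(1 / 2) ≤ u - round u ∧ u - round u < 1 / 2 := by
  rw [round_eq]
  have h1 := Int.floor_le (u + 1 / 2)
  have h2 := Int.lt_floor_add_one (u + 1 / 2)
  constructor <;> linarith

theorem round_of (n : ℤ) (u : ℝ) (h1 : -(1 / 2) ≤ u - n) (h2 : u - n < 1 / 2) :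
    round u = n := by
  rw [round_eq, Int.floor_eq_iff]
  constructor <;> linarith

theorem Gr_eq (n : ℤ) (u : ℝ) (h1 : -(1 / 2) ≤ u - n) (h2 : u - n ≤ 1 / 2) :
    Gr u = (n : ℝ) / 12 + (u - n) ^ 3 / 3 := by
  rcases lt_or_eq_of_le h2 with h | h
  · unfold Gr
    rw [round_of n u h1 h]
  · have h3 : round u = n + 1 := by
      apply round_of
      · push_cast; linarith
      · push_cast; linarith
    unfold Gr
    rw [h3]
    have h4 : u = n + 1 / 2 := by linarith
    rw [h4]
    push_cast
    ring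

theorem hasDerivAt_cubic (n : ℤ) (u : ℝ) :
    HasDerivAt (fun w : ℝ => (n : ℝ) / 12 + (w - n) ^ 3 / 3) ((u - n) ^ 2) u := by
  have h1 : HasDerivAt (fun w : ℝ => w - n) 1 u := (hasDerivAt_id u).sub_const _
  have h2 := ((h1.pow 3).div_const 3).const_add ((n : ℝ) / 12)
  exact h2.congr_deriv (by push_cast; ring)

theorem hasDerivAt_Gr (u : ℝ) : HasDerivAt Gr ((u - round u) ^ 2) u := by
  obtain ⟨h1, h2⟩ := round_bounds u
  set n := round u with hn
  rcases lt_or_eq_of_le h1 with h | h
  · refine (hasDerivAt_cubic n u).congr_of_eventuallyEq ?_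
    have hopen : Set.Ioo ((n : ℝ) - 1 / 2) (n + 1 / 2) ∈ nhds u := by
      apply Ioo_mem_nhds <;> linarith
    filter_upwards [hopen] with w hw
    exact Gr_eq n w (by linarith [hw.1]) (by linarith [hw.2])
  · have hu : u = n - 1 / 2 := by linarith
    have hR : HasDerivWithinAt Gr ((u - n) ^ 2) (Set.Ici u) u := by
      refine (hasDerivAt_cubic n u).hasDerivWithinAt.congr_of_eventuallyEq ?_
        (Gr_eq n u (by linarith) (by linarith))
      have hopen : Set.Iio ((n : ℝ) + 1 / 2) ∈ nhds u := Iio_mem_nhds (by linarith)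
      filter_upwards [nhdsWithin_le_nhds hopen, self_mem_nhdsWithin] with w hw1 hw2
      have hw1' : w < n + 1 / 2 := hw1
      have hw2' : u ≤ w := hw2
      exact Gr_eq n w (by linarith) (by linarith)
    have hL : HasDerivWithinAt Gr ((u - n) ^ 2) (Set.Iic u) u := by
      have h3 : (u - n) ^ 2 = (u - ((n - 1 : ℤ) : ℝ)) ^ 2 := by
        push_cast; rw [hu]; ring
      rw [h3]
      refine (hasDerivAt_cubic (n - 1) u).hasDerivWithinAt.congr_of_eventuallyEq ?_
        (Gr_eq (n - 1) u (by push_cast; linarith) (by push_cast; linarith))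
      have hopen : Set.Ioi ((n : ℝ) - 3 / 2) ∈ nhds u := Ioi_mem_nhds (by linarith)
      filter_upwards [nhdsWithin_le_nhds hopen, self_mem_nhdsWithin] with w hw1 hw2
      have hw1' : (n : ℝ) - 3 / 2 < w := hw1
      have hw2' : w ≤ u := hw2
      exact Gr_eq (n - 1) w (by push_cast; linarith) (by push_cast; linarith)
    have h4 := hL.union hR
    rw [Set.Iic_union_Ici, hasDerivWithinAt_univ] at h4
    exact h4

/-- cut off reciprocal -/
noncomputable def ff (u : ℝ) : ℝ := if 1 / 2 ≤ u then 1 / u else 0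

theorem ff_nonneg (u : ℝ) : 0 ≤ ff u := by
  unfold ff
  split_ifs with h
  · have : 0 < u := by linarith
    positivity
  · exact le_rfl

theorem Gr_nonneg (u : ℝ) (hu : 0 ≤ u) : 0 ≤ Gr u := by
  obtain ⟨h1, h2⟩ := round_bounds u
  have h0 : 0 ≤ round u := by
    rw [round_eq]
    apply Int.floor_nonneg.2
    linarith
  unfold Gr
  set n := round u with hn
  rcases eq_or_lt_of_le h0 with h | h
  · rw [← h]
    push_cast
    rw [sub_zero]
    positivity
  · have h3 : (1 : ℝ) ≤ n := by exact_mod_cast h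
    have h4 : (-(1 / 2)) ^ 3 ≤ (u - n) ^ 3 := by
      apply Odd.strictMono_pow (by decide : Odd 3) |>.monotone h1
    nlinarith

theorem Gr_le (u : ℝ) (hu : 0 < u) : Gr u / u ≤ 1 / 12 + ff u / 24 := by
  obtain ⟨h1, h2⟩ := round_bounds u
  have h0 : 0 ≤ round u := by
    rw [round_eq]
    apply Int.floor_nonneg.2
    linarith
  have key : Gr u ≤ u / 12 + (if 1 / 2 ≤ u then 1 / 24 else 0) := by
    split_ifs with h
    · unfold Gr
      set v := u - round u with hv
      have hn : (round u : ℝ) = u - v := by rw [hv]; ring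
      rw [hn]
      nlinarith [mul_nonneg (mul_nonneg (by linarith : 0 ≤ v + 1 / 2) (by linarith : 0 ≤ v + 1 / 2))
        (by linarith : (0:ℝ) ≤ 1 / 2 - v), sq_nonneg v]
    · have hr : round u = 0 := by
        apply round_of
        · push_cast; linarith
        · push_cast; linarith
      unfold Gr
      rw [hr]
      push_cast
      have h' : u < 1 / 2 := not_le.1 h
      nlinarith [mul_pos hu hu, mul_pos hu (by linarith : 0 < 1 / 2 - u)]
  rw [div_le_iff₀ hu]
  refine key.trans ?_
  unfold ff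
  split_ifs with h
  · have : (1 / 12 + 1 / u / 24) * u = u / 12 + 1 / 24 := by field_simp
    rw [this]
  · linarith

/-- geometric decay of `ff` along doubling -/
theorem ff_sum_big (J : ℕ) (u : ℝ) (hu : 1 / 2 ≤ u) :
    ∑ j ∈ Finset.range J, ff (2 ^ j * u) ≤ 2 / u := by
  induction J generalizing u with
  | zero => simp; positivity
  | succ J ih =>
    rw [Finset.sum_range_succ']
    have h1 : ∀ j, ff (2 ^ (j + 1) * u) = ff (2 ^ j * (2 * u)) := by
      intro j; congr 1; ring
    simp only [h1]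
    have h2 := ih (2 * u) (by linarith)
    have h3 : ff (2 ^ 0 * u) = 1 / u := by
      rw [pow_zero, one_mul]; unfold ff; rw [if_pos hu]
    rw [h3]
    have h4 : 2 / (2 * u) = 1 / u := by
      have : u ≠ 0 := by intro h; rw [h] at hu; norm_num at hu
      field_simp
    rw [h4] at h2
    have h5 : 2 / u = 1 / u + 1 / u := by ring
    linarith

theorem ff_sum (J : ℕ) (u : ℝ) : ∑ j ∈ Finset.range J, ff (2 ^ j * u) ≤ 4 := by
  induction J generalizing u with
  | zero => simp
  | succ J ih =>
    by_cases hu : 1 / 2 ≤ u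
    · refine (ff_sum_big _ u hu).trans ?_
      rw [div_le_iff₀ (by linarith)]
      linarith
    · rw [Finset.sum_range_succ']
      have h1 : ∀ j, ff (2 ^ (j + 1) * u) = ff (2 ^ j * (2 * u)) := by
        intro j; congr 1; ring
      simp only [h1]
      have h2 := ih (2 * u)
      have h3 : ff (2 ^ 0 * u) = 0 := by
        rw [pow_zero, one_mul]; unfold ff; rw [if_neg hu]
      rw [h3]
      linarith

/-- good rounding: some dilation factor in a bounded range makes the mean squared distance to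
the integers at most `1/12 + ε` -/
theorem exists_round (ε T0 : ℝ) (hε : 0 < ε) (hT0 : 0 < T0) :
    ∃ R1 : ℝ, T0 ≤ R1 ∧ ∀ {α : Type} (S : Finset α) (y : α → ℝ), (∀ a ∈ S, 0 ≤ y a) →
      ∃ t : ℝ, T0 ≤ t ∧ t ≤ R1 ∧
        ∑ a ∈ S, (t * y a - round (t * y a)) ^ 2 ≤ (1 / 12 + ε) * S.card := by
  classical
  obtain ⟨J, hJ⟩ := exists_nat_gt (2 + 1 / (3 * ε))
  refine ⟨2 ^ J * T0, ?_, ?_⟩
  · have : (1 : ℝ) ≤ 2 ^ J := one_le_pow₀ (by norm_num)
    nlinarith
  intro α S y hy
  by_contra hcon
  push Not at hcon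
  set m : ℝ := (S.card : ℝ) with hm
  set V : ℝ := (1 / 12 + ε) * m with hV
  set S' := S.filter fun a => 0 < y a with hS'
  have hmpos : 0 < m := by
    rcases Finset.eq_empty_or_nonempty S with h | h
    · have h1 := hcon T0 le_rfl (by
        have : (1 : ℝ) ≤ 2 ^ J := one_le_pow₀ (by norm_num)
        nlinarith)
      rw [hV, hm, h] at h1
      simp at h1
    · rw [hm]; exact_mod_cast Finset.card_pos.2 h
  have hVpos : 0 < V := by rw [hV]; positivity
  let H : ℝ → ℝ := fun t => ∑ a ∈ S', Gr (t * y a) / y a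
  have hHd : ∀ t, HasDerivAt H (∑ a ∈ S, (t * y a - round (t * y a)) ^ 2) t := by
    intro t
    have h1 : ∑ a ∈ S, (t * y a - round (t * y a)) ^ 2 =
        ∑ a ∈ S', (t * y a - round (t * y a)) ^ 2 := by
      rw [hS', Finset.sum_filter]
      refine Finset.sum_congr rfl fun a ha => ?_
      split_ifs with h
      · rfl
      · have h2 : y a = 0 := le_antisymm (not_lt.1 h) (hy a ha)
        rw [h2]; simp
    rw [h1]
    have h2 : ∀ a ∈ S', HasDerivAt (fun t : ℝ => Gr (t * y a) / y a)
        ((t * y a - round (t * y a)) ^ 2) t := by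
      intro a ha
      have hya : 0 < y a := (Finset.mem_filter.1 ha).2
      have h3 : HasDerivAt (fun t : ℝ => t * y a) (y a) t := by
        simpa using (hasDerivAt_id t).mul_const (y a)
      have h4 := ((hasDerivAt_Gr (t * y a)).comp t h3).div_const (y a)
      exact h4.congr_deriv (by field_simp)
    have h5 := HasDerivAt.fun_sum h2
    exact h5
  have hH0 : 0 ≤ H T0 := by
    refine Finset.sum_nonneg fun a ha => ?_
    have hya : 0 < y a := (Finset.mem_filter.1 ha).2
    exact div_nonneg (Gr_nonneg _ (by positivity)) hya.le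
  have hgrow : ∀ j ∈ Finset.range J, V * (1 - (1 / 2) ^ j) ≤
      ∑ a ∈ S', (1 / 12 + ff (2 ^ j * (T0 * y a)) / 24) := by
    intro j hj
    have hjJ : j < J := Finset.mem_range.1 hj
    set R := 2 ^ j * T0 with hR
    have hp1 : (1 : ℝ) ≤ 2 ^ j := one_le_pow₀ (by norm_num)
    have hRT : T0 ≤ R := by rw [hR]; nlinarith
    have hRpos : 0 < R := lt_of_lt_of_le hT0 hRT
    have hRJ : R ≤ 2 ^ J * T0 := by
      rw [hR]
      apply mul_le_mul_of_nonneg_right _ hT0.le
      exact pow_le_pow_right₀ (by norm_num) hjJ.le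
    have h1 : V * (R - T0) ≤ H R - H T0 := by
      apply (convex_Icc T0 R).mul_sub_le_image_sub_of_le_deriv
      · exact fun t _ => (hHd t).continuousAt.continuousWithinAt
      · exact fun t _ => (hHd t).differentiableAt.differentiableWithinAt
      · intro t ht
        rw [interior_Icc] at ht
        rw [(hHd t).deriv]
        exact (hcon t ht.1.le (ht.2.le.trans hRJ)).le
      · exact ⟨le_rfl, hRT⟩
      · exact ⟨hRT, le_rfl⟩
      · exact hRT
    have h2 : V * (R - T0) ≤ H R := by linarith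
    have h3 : H R / R = ∑ a ∈ S', Gr (R * y a) / (R * y a) := by
      simp only [H]
      rw [Finset.sum_div]
      refine Finset.sum_congr rfl fun a ha => ?_
      rw [div_div, mul_comm (y a) R]
    have h4 : V * (R - T0) / R = V * (1 - (1 / 2) ^ j) := by
      rw [hR, one_div, inv_pow]
      field_simp
    rw [← h4]
    have h5 : V * (R - T0) / R ≤ H R / R := div_le_div_of_nonneg_right h2 hRpos.le
    rw [h3] at h5
    refine h5.trans (Finset.sum_le_sum fun a ha => ?_)
    have hya : 0 < y a := (Finset.mem_filter.1 ha).2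
    have h6 := Gr_le (R * y a) (by positivity)
    have h7 : R * y a = 2 ^ j * (T0 * y a) := by rw [hR]; ring
    rw [h7] at h6 ⊢
    exact h6
  have hsum := Finset.sum_le_sum hgrow
  have hleft : V * (J - 2) ≤ ∑ j ∈ Finset.range J, V * (1 - (1 / 2) ^ j) := by
    rw [← Finset.mul_sum, Finset.sum_sub_distrib]
    apply mul_le_mul_of_nonneg_left _ hVpos.le
    have h1 : ∑ j ∈ Finset.range J, ((1 : ℝ) / 2) ^ j ≤ 2 := by
      have h2 := geom_sum_eq (x := (1 : ℝ) / 2) (by norm_num) J
      rw [h2]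
      have h3 : (0 : ℝ) ≤ (1 / 2) ^ J := by positivity
      have h4 : ((1 / 2 : ℝ) ^ J - 1) / (1 / 2 - 1) = 2 - 2 * (1 / 2) ^ J := by ring
      rw [h4]
      linarith
    simp only [Finset.sum_const, Finset.card_range, nsmul_eq_mul, mul_one]
    linarith
  have hright : ∑ j ∈ Finset.range J, ∑ a ∈ S', (1 / 12 + ff (2 ^ j * (T0 * y a)) / 24) ≤
      m * (J / 12 + 1 / 6) := by
    rw [Finset.sum_comm]
    have h1 : ∀ a ∈ S', ∑ j ∈ Finset.range J, (1 / 12 + ff (2 ^ j * (T0 * y a)) / 24) ≤
        (J : ℝ) / 12 + 1 / 6 := by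
      intro a _
      have h0 : ∑ j ∈ Finset.range J, ff (2 ^ j * (T0 * y a)) / 24 =
          (∑ j ∈ Finset.range J, ff (2 ^ j * (T0 * y a))) / 24 := (Finset.sum_div _ _ _).symm
      rw [Finset.sum_add_distrib, h0]
      have := ff_sum J (T0 * y a)
      rw [Finset.sum_const, Finset.card_range, nsmul_eq_mul]
      linarith
    refine (Finset.sum_le_sum h1).trans ?_
    rw [Finset.sum_const, nsmul_eq_mul]
    apply mul_le_mul_of_nonneg_right _ (by positivity)
    rw [hm]
    exact_mod_cast Finset.card_le_card (Finset.filter_subset _ _)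
  have hfin : V * (J - 2) ≤ m * (J / 12 + 1 / 6) := hleft.trans (hsum.trans hright)
  rw [hV] at hfin
  have h1 : (1 / 12 + ε) * ((J : ℝ) - 2) ≤ J / 12 + 1 / 6 := by
    have h2 : m * ((1 / 12 + ε) * ((J : ℝ) - 2)) ≤ m * (J / 12 + 1 / 6) := by
      linarith
    exact le_of_mul_le_mul_left h2 hmpos
  have h2 : ε * (J - 2) ≤ 1 / 3 := by linarith
  have h3 : 1 / (3 * ε) < J - 2 := by linarith
  have h4 : ε * (1 / (3 * ε)) < ε * (J - 2) := mul_lt_mul_of_pos_left h3 hε
  have h5 : ε * (1 / (3 * ε)) = 1 / 3 := by field_simp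
  linarith

end Pool.Agent.Paley67r3
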