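import Pool.Agent.Work.MP_9d0e17_co.Eigen
import Pool.Agent.Work.MP_9d0e17_r3.Round
import Pool.Agent.Work.MP_9d0e17_sch.Core6

set_option autoImplicit false

namespace Pool.Agent.Paley67r3

open Pool.Agent.Paley67

variable {p : ℕ} [hp : Fact p.Prime]

/-- the integer weight inequality, by helper90 (staircase determinants) -/
theorem int_main (hp2 : p ≠ 2) (F : ZMod p → ℤ) (z : ℕ) (hz1 : 1 ≤ z) (hF : ∀ a, |F a| ≤ z)
    (hz : (z : ℤ) + 2 ≤ ∑ a, |F a|) (hpar : Even ((∑ a, |F a|) + z))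
    (hNp : (∑ a, |F a|) + z ≤ (p : ℤ) - 1) (hzz : z * z ≤ 2 * (p - 1)) (B : Finset (ZMod p)) :
    ∑ b ∈ B, ((∑ a, F a * chi p (b - a)) ^ 2 - ((z : ℤ) - |F b|) ^ 2) ≤
      ((p : ℤ) - 1) * ((∑ a, F a ^ 2) - z) + 2 * z * (∑ a, |F a|) - (z : ℤ) ^ 2 := by
  have hcast : ((∑ a, (F a).natAbs : ℕ) : ℤ) = ∑ a, |F a| := by
    rw [Nat.cast_sum]
    exact Finset.sum_congr rfl fun a _ => Int.natCast_natAbs (F a)
  have h1 := Pool.Sch.int_ineq hp2 F z hz1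
    (fun a => by
      have := hF a
      rw [← Int.natCast_natAbs] at this
      exact_mod_cast this)
    (by
      have : ((z + 2 : ℕ) : ℤ) ≤ ((∑ a, (F a).natAbs : ℕ) : ℤ) := by
        rw [hcast]; push_cast; exact hz
      exact_mod_cast this)
    (by
      have : Even (((∑ a, (F a).natAbs + z : ℕ)) : ℤ) := by
        rw [Nat.cast_add, hcast]; exact hpar
      exact_mod_cast this)
    (by
      have : ((∑ a, (F a).natAbs + z : ℕ) : ℤ) ≤ ((p + 1 : ℕ) : ℤ) := by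
        rw [Nat.cast_add, hcast]; push_cast; linarith
      exact_mod_cast this) hzz B
  have h2 : ∑ a, ((F a).natAbs : ℤ) = ∑ a, |F a| :=
    Finset.sum_congr rfl fun a _ => Int.natCast_natAbs (F a)
  rw [h2] at h1
  have h3 : ∑ b ∈ B, (Pool.Sch.tau p F b ^ 2 - ((z : ℤ) - (F b).natAbs) ^ 2) =
      ∑ b ∈ B, ((∑ a, F a * chi p (b - a)) ^ 2 - ((z : ℤ) - |F b|) ^ 2) := by
    refine Finset.sum_congr rfl fun b _ => ?_
    rw [Int.natCast_natAbs]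
    rfl
  rw [h3] at h1
  exact h1



/-- linearised form -/
theorem int_lin (hp2 : p ≠ 2) (F η : ZMod p → ℤ)
    (hη : ∀ b, η b = 1 ∨ η b = -1) (z : ℕ) (hz0 : 1 ≤ z) (hF : ∀ a, |F a| ≤ z)
    (hz : (z : ℤ) + 2 ≤ ∑ a, |F a|) (hpar : Even ((∑ a, |F a|) + z))
    (hNp : (∑ a, |F a|) + z ≤ (p : ℤ) - 1) (hzz : z * z ≤ 2 * (p - 1))
    (S : Finset (ZMod p)) (u : ZMod p → ℝ)
    (hu : ∀ b ∈ S, 0 ≤ u b) :
    ∑ b ∈ S, (2 * u b * ((η b * ∑ a, F a * chi p (b - a) : ℤ) : ℝ) - u b ^ 2 -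
        ((z : ℝ) - ((|F b| : ℤ) : ℝ)) ^ 2) ≤
      ((p : ℝ) - 1) * (((∑ a, F a ^ 2 : ℤ) : ℝ) - z) +
        2 * z * ((∑ a, |F a| : ℤ) : ℝ) - (z : ℝ) ^ 2 := by
  classical
  have h1 := int_main hp2 F z hz0 hF hz hpar hNp hzz
    (S.filter fun b => (z : ℤ) - |F b| ≤ η b * ∑ a, F a * chi p (b - a))
  have h2 : ((∑ b ∈ S.filter fun b => (z : ℤ) - |F b| ≤ η b * ∑ a, F a * chi p (b - a),
      ((∑ a, F a * chi p (b - a)) ^ 2 - ((z : ℤ) - |F b|) ^ 2) : ℤ) : ℝ) ≤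
      ((((p : ℤ) - 1) * ((∑ a, F a ^ 2) - z) + 2 * z * (∑ a, |F a|) - (z : ℤ) ^ 2 : ℤ) : ℝ) := by
    exact_mod_cast h1
  have h3 : ((((p : ℤ) - 1) * ((∑ a, F a ^ 2) - z) + 2 * z * (∑ a, |F a|) -
      (z : ℤ) ^ 2 : ℤ) : ℝ) =
      ((p : ℝ) - 1) * (((∑ a, F a ^ 2 : ℤ) : ℝ) - z) +
        2 * z * ((∑ a, |F a| : ℤ) : ℝ) - (z : ℝ) ^ 2 := by
    rw [Int.cast_sub, Int.cast_add, Int.cast_mul, Int.cast_sub, Int.cast_sub, Int.cast_mul,
      Int.cast_mul, Int.cast_pow]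
    simp only [Int.cast_natCast, Int.cast_one, Int.cast_ofNat]
  rw [h3] at h2
  refine le_trans ?_ h2
  rw [Finset.sum_filter, Int.cast_sum]
  refine Finset.sum_le_sum fun b hb => ?_
  have hzb : (0 : ℤ) ≤ (z : ℤ) - |F b| := by linarith [hF b]
  have hz0 : (0 : ℝ) ≤ (z : ℝ) - ((|F b| : ℤ) : ℝ) := by exact_mod_cast hzb
  have hub := hu b hb
  split_ifs with h
  · have e1 : ((((∑ a, F a * chi p (b - a)) ^ 2 - ((z : ℤ) - |F b|) ^ 2 : ℤ)) : ℝ) =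
        ((η b * ∑ a, F a * chi p (b - a) : ℤ) : ℝ) ^ 2 -
          ((z : ℝ) - ((|F b| : ℤ) : ℝ)) ^ 2 := by
      have e2 : (η b * ∑ a, F a * chi p (b - a)) ^ 2 = (∑ a, F a * chi p (b - a)) ^ 2 := by
        rw [mul_pow]
        rcases hη b with h' | h' <;> rw [h'] <;> ring
      rw [← e2]
      push_cast
      ring
    rw [e1]
    nlinarith [sq_nonneg (u b - ((η b * ∑ a, F a * chi p (b - a) : ℤ) : ℝ))]
  · have h4 : ((η b * ∑ a, F a * chi p (b - a) : ℤ) : ℝ) ≤ (z : ℝ) - ((|F b| : ℤ) : ℝ) := by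
      have h5 := (not_le.1 h).le
      exact_mod_cast h5
    rw [Int.cast_zero]
    nlinarith [sq_nonneg (u b - ((z : ℝ) - ((|F b| : ℤ) : ℝ))), mul_le_mul_of_nonneg_left h4 hub]

/-- the inequality for an eigenvector and its rounding -/
theorem eigen_int (hp4 : p % 4 = 1) (S : Finset (ZMod p)) (x : ZMod p → ℝ)
    (μ : ℝ) (heig : ∀ a ∈ S, ∑ b ∈ S, (chi p (a - b) : ℝ) * x b = μ * x a)
    (t : ℝ) (ht : 0 ≤ t) (z : ℕ) (hz0 : 1 ≤ z) (hzz : z * z ≤ 2 * (p - 1))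
    (hz1 : ∀ a ∈ S, round (t * |x a|) ≤ (z : ℤ))
    (hz2 : (z : ℤ) + 2 ≤ ∑ a ∈ S, round (t * |x a|))
    (hpar : Even ((∑ a ∈ S, round (t * |x a|)) + z))
    (hNp : (∑ a ∈ S, round (t * |x a|)) + z ≤ (p : ℤ) - 1) :
    ((p : ℝ) - 1) * z - ((S.card : ℝ) - 1) * z ^ 2 ≤
      p * (∑ a ∈ S, (round (t * |x a|) : ℝ) ^ 2) -
        μ ^ 2 * ((∑ a ∈ S, (round (t * |x a|) : ℝ) ^ 2) -
          ∑ a ∈ S, (t * |x a| - round (t * |x a|)) ^ 2) := by
  classical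
  have hp2 : p ≠ 2 := by omega
  let r : ZMod p → ℤ := fun a => round (t * |x a|)
  have hr0 : ∀ a, 0 ≤ r a := by
    intro a
    simp only [r]
    rw [round_eq]
    apply Int.floor_nonneg.2
    have : 0 ≤ t * |x a| := mul_nonneg ht (abs_nonneg _)
    linarith
  let e : ZMod p → ℤ := fun a => if x a < 0 then -1 else 1
  let sm : ℤ := if μ < 0 then -1 else 1
  let η : ZMod p → ℤ := fun b => sm * e b
  have he : ∀ a, e a = 1 ∨ e a = -1 := by
    intro a; by_cases h : x a < 0 <;> simp [e, h]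
  have hsm : sm = 1 ∨ sm = -1 := by
    by_cases h : μ < 0 <;> simp [sm, h]
  have hη : ∀ a, η a = 1 ∨ η a = -1 := by
    intro a
    rcases he a with h | h <;> rcases hsm with h' | h' <;> simp [η, h, h']
  have hex : ∀ a, (e a : ℝ) * |x a| = x a := by
    intro a
    by_cases h : x a < 0
    · simp [e, h, abs_of_neg h]
    · simp [e, h, abs_of_nonneg (not_lt.1 h)]
  have hex' : ∀ a, (e a : ℝ) * x a = |x a| := by
    intro a
    by_cases h : x a < 0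
    · simp [e, h, abs_of_neg h]
    · simp [e, h, abs_of_nonneg (not_lt.1 h)]
  have hsmμ : (sm : ℝ) * |μ| = μ := by
    by_cases h : μ < 0
    · simp [sm, h, abs_of_neg h]
    · simp [sm, h, abs_of_nonneg (not_lt.1 h)]
  let F : ZMod p → ℤ := fun a => if a ∈ S then e a * r a else 0
  have hFabs : ∀ a, |F a| = if a ∈ S then r a else 0 := by
    intro a
    simp only [F]
    split_ifs with h
    · rw [abs_mul, abs_of_nonneg (hr0 a)]
      rcases he a with h' | h' <;> rw [h'] <;> simp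
    · simp
  have hN : ∑ a, |F a| = ∑ a ∈ S, r a := by
    rw [Finset.sum_congr rfl fun a _ => hFabs a, Finset.sum_ite_mem, Finset.univ_inter]
  have hQ : ∑ a, F a ^ 2 = ∑ a ∈ S, r a ^ 2 := by
    have h1 : ∀ a, F a ^ 2 = if a ∈ S then r a ^ 2 else 0 := by
      intro a
      rw [← sq_abs, hFabs]
      split_ifs
      · rfl
      · norm_num
    rw [Finset.sum_congr rfl fun a _ => h1 a, Finset.sum_ite_mem, Finset.univ_inter]
  have hFz : ∀ a, |F a| ≤ z := by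
    intro a
    rw [hFabs]
    split_ifs with h
    · exact hz1 a h
    · exact Int.natCast_nonneg z
  have key := int_lin hp2 F η hη z hz0 hFz (by rw [hN]; exact hz2) (by rw [hN]; exact hpar)
    (by rw [hN]; exact hNp) hzz S (fun b => |μ| * t * |x b|)
    (fun b _ => by positivity)
  -- the pairing term
  have hpair : ∑ b ∈ S, (|μ| * t * |x b|) * ((η b * ∑ a, F a * chi p (b - a) : ℤ) : ℝ) =
      μ ^ 2 * ∑ a ∈ S, (r a : ℝ) * (t * |x a|) := by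
    have h1 : ∀ b ∈ S, (|μ| * t * |x b|) * ((η b * ∑ a, F a * chi p (b - a) : ℤ) : ℝ) =
        ∑ a ∈ S, (μ * t * ((e a : ℝ) * r a)) * ((chi p (a - b) : ℝ) * x b) := by
      intro b _
      have h2 : (∑ a, F a * chi p (b - a) : ℤ) = ∑ a ∈ S, e a * r a * chi p (b - a) := by
        simp only [F, ite_mul, zero_mul]
        rw [Finset.sum_ite_mem, Finset.univ_inter]
      rw [h2]
      push_cast
      rw [Finset.mul_sum, Finset.mul_sum]
      refine Finset.sum_congr rfl fun a _ => ?_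
      rw [chi_sub_comm hp4 a b]
      simp only [η]
      push_cast
      have h3 : |μ| * t * |x b| * ((sm : ℝ) * (e b : ℝ) * ((e a : ℝ) * (r a : ℝ) *
          (chi p (b - a) : ℝ))) = ((sm : ℝ) * |μ|) * t * ((e b : ℝ) * |x b|) *
          ((e a : ℝ) * (r a : ℝ)) * (chi p (b - a) : ℝ) := by ring
      rw [h3, hsmμ, hex b]
      ring
    rw [Finset.sum_congr rfl h1, Finset.sum_comm, Finset.mul_sum]
    refine Finset.sum_congr rfl fun a ha => ?_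
    rw [← Finset.mul_sum, heig a ha]
    have h4 : μ * t * ((e a : ℝ) * (r a : ℝ)) * (μ * x a) =
        μ ^ 2 * ((r a : ℝ) * (t * ((e a : ℝ) * x a))) := by ring
    rw [h4, hex' a]
  have hsplit : ∑ b ∈ S, (2 * (|μ| * t * |x b|) *
      ((η b * ∑ a, F a * chi p (b - a) : ℤ) : ℝ) - (|μ| * t * |x b|) ^ 2 -
        ((z : ℝ) - ((|F b| : ℤ) : ℝ)) ^ 2) =
      2 * (μ ^ 2 * ∑ a ∈ S, (r a : ℝ) * (t * |x a|)) - μ ^ 2 * (∑ a ∈ S, (t * |x a|) ^ 2) -
        ((S.card : ℝ) * z ^ 2 - 2 * z * (∑ a ∈ S, (r a : ℝ)) + ∑ a ∈ S, (r a : ℝ) ^ 2) := by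
    rw [← hpair, Finset.mul_sum (s := S) (f := fun b => |μ| * t * |x b| *
      ((η b * ∑ a, F a * chi p (b - a) : ℤ) : ℝ)), Finset.mul_sum (s := S)
      (f := fun a => (t * |x a|) ^ 2), Finset.mul_sum (s := S) (f := fun a => (r a : ℝ))]
    have h5 : (S.card : ℝ) * (z : ℝ) ^ 2 = ∑ _b ∈ S, (z : ℝ) ^ 2 := by
      rw [Finset.sum_const, nsmul_eq_mul]
    rw [h5, ← Finset.sum_sub_distrib, ← Finset.sum_sub_distrib, ← Finset.sum_add_distrib,
      ← Finset.sum_sub_distrib]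
    refine Finset.sum_congr rfl fun b hb => ?_
    rw [hFabs, if_pos hb]
    have h6 : |μ| ^ 2 = μ ^ 2 := sq_abs μ
    have h7 : (|μ| * t * |x b|) ^ 2 = μ ^ 2 * (t * |x b|) ^ 2 := by
      rw [← h6]; ring
    rw [h7]
    ring
  rw [hsplit, hN, hQ] at key
  push_cast at key
  have hE : ∑ a ∈ S, (t * |x a| - (r a : ℝ)) ^ 2 =
      (∑ a ∈ S, (t * |x a|) ^ 2) - 2 * (∑ a ∈ S, (r a : ℝ) * (t * |x a|)) +
        ∑ a ∈ S, (r a : ℝ) ^ 2 := by
    rw [Finset.mul_sum, ← Finset.sum_sub_distrib, ← Finset.sum_add_distrib]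
    refine Finset.sum_congr rfl fun a _ => ?_
    ring
  show ((p : ℝ) - 1) * z - ((S.card : ℝ) - 1) * z ^ 2 ≤
      p * (∑ a ∈ S, (r a : ℝ) ^ 2) - μ ^ 2 * ((∑ a ∈ S, (r a : ℝ) ^ 2) -
          ∑ a ∈ S, (t * |x a| - (r a : ℝ)) ^ 2)
  rw [hE]
  linarith

end Pool.Agent.Paley67r3
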