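import Pool.Agent.Work.MP_9d0e17_r3.Contra
import Pool.Agent.Work.MP_9d0e17_co.Quad

set_option autoImplicit false

open Matrix

namespace Pool.Agent.Paley67r3

open Pool.Agent.Paley67

theorem quad_bound3 (c : ℝ) (hc1 : 1 ≤ c) (hc : c ^ 2 < 3) :
    ∃ δ : ℝ, 0 < δ ∧ δ ≤ 1 / 20 ∧ ∃ R : ℝ, 20 ≤ R ∧ ∀ (p : ℕ) [Fact p.Prime], p % 4 = 1 →
      R ≤ Real.sqrt p → ∀ S : Finset (ZMod p), (S.card : ℝ) ≤ c * Real.sqrt p →
      ∀ (x : ZMod p → ℝ),
      |∑ a ∈ S, ∑ b ∈ S, (chi p (a - b) : ℝ) * x a * x b| ≤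
        (1 - δ) * Real.sqrt p * ∑ a ∈ S, x a ^ 2 := by
  classical
  obtain ⟨δ, h1, h2, R, h3, h4⟩ := eigen_bound3 c hc1 hc
  refine ⟨δ, h1, h2, R, h3, ?_⟩
  intro p _ hp4 hR S hS x
  have key : ∀ σ : ℝ, (σ = 1 ∨ σ = -1) →
      σ * ∑ a ∈ S, ∑ b ∈ S, (chi p (a - b) : ℝ) * x a * x b ≤
        (1 - δ) * Real.sqrt p * ∑ a ∈ S, x a ^ 2 := by
    intro σ hσ
    have hσ2 : σ * σ = 1 := by rcases hσ with rfl | rfl <;> norm_num
    have hσa : |σ| = 1 := by rcases hσ with rfl | rfl <;> norm_num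
    have h5 := quad_of_eigen (n := S) (fun a b => σ * (chi p ((a : ZMod p) - b) : ℝ))
      (fun a b => by rw [chi_sub_comm hp4]) ((1 - δ) * Real.sqrt p) (by
        intro v μ hv hev
        let y : ZMod p → ℝ := fun a => if h : a ∈ S then v ⟨a, h⟩ else 0
        have hy : ∀ a : S, y a = v a := by
          intro a; simp [y]
        obtain ⟨a, ha⟩ := Function.ne_iff.1 hv
        have h6 := h4 p hp4 hR S hS y (σ * μ) ⟨a, a.2, by rw [hy]; exact ha⟩ (by
          intro a ha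
          have h7 := hev ⟨a, ha⟩
          rw [← Finset.sum_coe_sort S (fun b => (chi p (a - b) : ℝ) * y b)]
          have h8 : ∑ b : S, σ * (chi p (a - (b : ZMod p)) : ℝ) * v b = μ * v ⟨a, ha⟩ := h7
          have h9 : ∑ b : S, (chi p (a - (b : ZMod p)) : ℝ) * y b =
              σ * ∑ b : S, σ * (chi p (a - (b : ZMod p)) : ℝ) * v b := by
            rw [Finset.mul_sum]
            refine Finset.sum_congr rfl fun b _ => ?_
            rw [hy b]
            linear_combination (-(chi p (a - (b : ZMod p)) : ℝ) * v b) * hσ2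
          rw [h9, h8, show y a = v ⟨a, ha⟩ from hy ⟨a, ha⟩]
          ring)
        have h7 : |σ * μ| = |μ| := by rw [abs_mul, hσa, one_mul]
        rw [h7] at h6
        exact (le_abs_self μ).trans h6) (fun a => x a)
    have h6 : ∑ a ∈ S, x a ^ 2 = ∑ a : S, x a ^ 2 :=
      (Finset.sum_coe_sort S (fun a => x a ^ 2)).symm
    have h7 : σ * ∑ a ∈ S, ∑ b ∈ S, (chi p (a - b) : ℝ) * x a * x b =
        ∑ a : S, ∑ b : S, σ * (chi p ((a : ZMod p) - b) : ℝ) * x a * x b := by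
      rw [← Finset.sum_coe_sort S (fun a => ∑ b ∈ S, (chi p (a - b) : ℝ) * x a * x b),
        Finset.mul_sum]
      refine Finset.sum_congr rfl fun a _ => ?_
      rw [← Finset.sum_coe_sort S (fun b => (chi p ((a : ZMod p) - b) : ℝ) * x a * x b),
        Finset.mul_sum]
      refine Finset.sum_congr rfl fun b _ => ?_
      ring
    rw [h6, h7]
    exact h5
  rw [abs_le]
  constructor
  · have := key (-1) (Or.inr rfl)
    linarith
  · have := key 1 (Or.inl rfl)
    linarith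

end Pool.Agent.Paley67r3
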